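import Pool.Agent.Helper68.T3.GoalsT
import Pool.Agent.Helper65.VN.TAYX

/-!
# T3, packet PG-TAYP (MP_a41896_nt): the square root of `B (ξ + 4 ψ² t)` for a power series `t`
-/

set_option autoImplicit false

namespace Pool.Agent.Helper94.T3.TAYP

open WeierstrassCurve Height
open Pool.Agent.Helper29.BL Pool.Agent.Helper92.Ru Pool.Agent.Helper42.SG Pool.Agent.Helper65.SG
open Pool.Agent.Helper65.VN.TAYX

section series

variable {K : Type} [Field K]

lemma tay_series (W : Affine K) {σ : Type} (ξ ψ : K) (t : MvPowerSeries σ K)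
    (hψ : ψ ^ 2 = Bf W ξ) (ht : MvPowerSeries.constantCoeff t = 0) :
    ∃ P : MvPowerSeries σ K,
      P ^ 2 = Bf (W.map (algebraMap K (MvPowerSeries σ K)))
        (MvPowerSeries.C ξ + MvPowerSeries.C (4 * ψ ^ 2) * t) ∧
      MvPowerSeries.constantCoeff P = ψ ∧
      ∀ (v : AbsoluteValue K ℝ) (r : σ → ℝ) (β : ℝ), (∀ i, 0 < r i) → bet W v ≤ β →
        NPS v r t (1 / (c2 v ^ 10 * β * Mv v ξ ^ 2)) →
        NPS v r (MvPowerSeries.C ξ + MvPowerSeries.C (4 * ψ ^ 2) * t)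
          (c2 v * Mv v ξ) ∧
        NPS v r P (c2 v ^ 10 * β * Mv v ξ ^ 2) := by
  obtain ⟨g, hg⟩ : ∃ g : MvPowerSeries σ K, g = t *
    (MvPowerSeries.C (12 * ξ ^ 2 + 2 * W.b₂ * ξ + 2 * W.b₄) +
      MvPowerSeries.C (4 * (12 * ξ + W.b₂) * ψ ^ 2) * t +
      MvPowerSeries.C (64 * ψ ^ 4) * t ^ 2) := ⟨_, rfl⟩
  have hg0 : MvPowerSeries.constantCoeff g = 0 := by
    rw [hg, map_mul, ht, zero_mul]
  obtain ⟨y, hy, hyn⟩ := sqrt_series g hg0
  refine ⟨MvPowerSeries.C ψ * (1 + 2 * g * y), ?_, ?_, ?_⟩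
  · have hE := congrArg (MvPowerSeries.C (σ := σ) (R := K)) hψ
    have ha : ∀ x : K, algebraMap K (MvPowerSeries σ K) x = MvPowerSeries.C x := fun x => by
      rw [MvPowerSeries.algebraMap_apply, Algebra.algebraMap_self_apply]
    rw [mul_pow, hy, hg]
    unfold Bf at hE ⊢
    simp only [WeierstrassCurve.map_b₂, WeierstrassCurve.map_b₄, WeierstrassCurve.map_b₆, ha,
      map_add, map_mul, map_pow, map_ofNat] at hE ⊢
    linear_combination hE
  · rw [map_mul, MvPowerSeries.constantCoeff_C, map_add, map_mul, map_mul, hg0]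
    simp
  · intro v r β hr hβ hX
    have hN := nfr_nps (K := K) v hr
    have hc := one_le_c2 v
    have hc0 : 0 < c2 v := lt_of_lt_of_le one_pos hc
    have hM := one_le_Mv v ξ
    have hM0 := Mv_pos v ξ
    have hβ1 : 1 ≤ β := (one_le_bet W v).trans hβ
    have hβ0 : 0 < β := lt_of_lt_of_le one_pos hβ1
    obtain ⟨e1, e2, e3, e4, e5⟩ := tay_est W v β hβ ξ ψ hψ
    have hC : ∀ (x : K) (T : ℝ), v x ≤ T → NPS v r (MvPowerSeries.C x) T := by
      intro x T hx
      have := hN.const x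
      rw [MvPowerSeries.algebraMap_apply, Algebra.algebraMap_self_apply] at this
      exact hN.mono _ _ _ this hx
    have hcp : ∀ i j : ℕ, i ≤ j → c2 v ^ i ≤ c2 v ^ j := fun i j h => pow_le_pow_right₀ hc h
    -- norm of `g`
    have n1 := hC _ _ e1
    have n2 : NPS v r (MvPowerSeries.C (4 * (12 * ξ + W.b₂) * ψ ^ 2) * t)
        (c2 v ^ 6 * β * Mv v ξ ^ 2) := by
      refine hN.mono _ _ _ (hN.mul _ _ _ _ (hC _ _ e2) hX) ?_
      rw [mul_one_div, div_le_iff₀ (by positivity)]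
      calc c2 v ^ 11 * β ^ 2 * Mv v ξ ^ 4 ≤ c2 v ^ 16 * β ^ 2 * Mv v ξ ^ 4 := by
            have := hcp 11 16 (by norm_num)
            gcongr
        _ = _ := by ring
    have n3 : NPS v r (MvPowerSeries.C (64 * ψ ^ 4) * t ^ 2)
        (c2 v ^ 6 * β * Mv v ξ ^ 2) := by
      refine hN.mono _ _ _ (hN.mul _ _ _ _ (hC _ _ e3) (frame_pow hN hX 2)) ?_
      rw [div_pow, one_pow, mul_one_div, div_le_iff₀ (by positivity)]
      calc c2 v ^ 14 * β ^ 2 * Mv v ξ ^ 6 ≤ c2 v ^ 26 * β ^ 3 * Mv v ξ ^ 6 := by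
            have := hcp 14 26 (by norm_num)
            have := pow_le_pow_right₀ hβ1 (show 2 ≤ 3 by norm_num)
            gcongr
        _ = _ := by ring
    have n4 : NPS v r g (1 / c2 v ^ 2) := by
      have h1 := frame_add hN (frame_add hN n1 n2)
        (hN.mono _ _ _ n3 (le_mul_of_one_le_left (by positivity) hc))
      have h2 := hN.mul _ _ _ _ hX h1
      rw [hg]
      refine hN.mono _ _ _ h2 (le_of_eq ?_)
      field_simp
    have n5 : NPS v r y (c2 v) := by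
      by_cases hv : IsNonarchimedean v
      · have hc1 : c2 v = 1 := cst_of_nonarch hv 2
        rw [hc1] at n4 ⊢
        exact (hyn v r hr).2 hv (by simpa using n4)
      · have hc1 : c2 v = 2 := cst_of_not_nonarch hv 2
        rw [hc1] at n4 ⊢
        exact (hyn v r hr).1 (hN.mono _ _ _ n4 (by norm_num))
    have n6 : NPS v r (1 + 2 * g * y) (c2 v) := by
      have h1 := hN.mul _ _ _ _ (hN.mul _ _ _ _ (frame_two hN) n4) n5
      have h2 : c2 v * (1 / c2 v ^ 2) * c2 v = 1 := by field_simp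
      rw [h2] at h1
      have := frame_add hN (frame_one hN) h1
      rwa [mul_one] at this
    constructor
    · have m1 := hC ξ _ (le_max_right 1 (v ξ) : v ξ ≤ Mv v ξ)
      have m2 : NPS v r (MvPowerSeries.C (4 * ψ ^ 2) * t) (Mv v ξ) := by
        refine hN.mono _ _ _ (hN.mul _ _ _ _ (hC _ _ e4) hX) ?_
        rw [mul_one_div, div_le_iff₀ (by positivity)]
        calc c2 v ^ 6 * β * Mv v ξ ^ 3 ≤ c2 v ^ 10 * β * Mv v ξ ^ 3 := by
              have := hcp 6 10 (by norm_num)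
              gcongr
          _ = _ := by ring
      exact frame_add hN m1 m2
    · refine hN.mono _ _ _ (hN.mul _ _ _ _ (hC _ _ e5) n6) ?_
      calc c2 v ^ 2 * β * Mv v ξ ^ 2 * c2 v = c2 v ^ 3 * β * Mv v ξ ^ 2 := by ring
        _ ≤ _ := by
          have := hcp 3 10 (by norm_num)
          gcongr

end series

theorem t_TAYP : Pool.Agent.Helper68.T3.TAYP := by
  intro K _ _ W
  have hB : ∀ v, BX (fun _ : Unit => W) v = c2 v ^ 10 * bet W v := fun v => by
    simp [BX, bP]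
  refine ⟨BX (fun _ : Unit => W), PlC_BX _, fun τ ξ ψ t hψ ht => ?_⟩
  obtain ⟨P, hP1, hP2, hP3⟩ := tay_series W ξ ψ t hψ ht
  refine ⟨P, hP1, hP2, fun v r hr hX => ?_⟩
  rw [hB] at hX ⊢
  obtain ⟨a1, a2⟩ := hP3 v r (bet W v) hr le_rfl hX
  refine ⟨(nfr_nps (K := K) v hr).mono _ _ _ a1 ?_, a2⟩
  refine mul_le_mul_of_nonneg_right ?_ (Mv_pos v _).le
  have h1 := one_le_c2 v
  have h2 := one_le_bet W v
  calc c2 v ≤ c2 v ^ 10 := le_self_pow₀ h1 (by norm_num)
    _ ≤ c2 v ^ 10 * bet W v := le_mul_of_one_le_right (by positivity) h2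

end Pool.Agent.Helper94.T3.TAYP
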